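import Pool.Agent.T6.H46.RR.Split
import Pool.Agent.T6.H46.RR.Fin

/-!
# A commensurated finitely generated abelian subgroup with an element of infinite order splits off
# a line
-/

set_option autoImplicit false

open Metric Set Filter Topology
open Pool.Agent.TH60.FP Pool.Agent.TH60.FP.Strip Pool.Agent.Y34.HB Pool.Agent.Y34.EL
open Pool.Agent.T6.H46.RR

namespace Pool.Agent.K6.H64.RA

variable {X : Type} [MetricSpace X] {G : Type} [Group G] [MulAction G X]

lemma isMin_pow (hX : CN X) [IsIsometricSMul G X] {a : G} {x : X} (h : IsMin a x) (n : ℕ) :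
    IsMin (a ^ n) x := by
  refine isMin_of_growth fun N => ⟨N, le_rfl, ?_⟩
  rw [← pow_mul, growth_of_isMin hX h, growth_of_isMin hX h]
  push_cast
  apply le_of_eq
  ring

lemma isMin_conj [IsIsometricSMul G X] {a g : G} {x : X} (h : IsMin (g⁻¹ * a * g) x) :
    IsMin a (g • x) := by
  have h1 := h.smul g
  have e : g * (g⁻¹ * a * g) * g⁻¹ = a := by group
  rwa [e] at h1

/-- elements with bounded orbits have finite order -/
lemma finite_order (hG : Geo X G) {g : G} {x : X} (h : g • x = x) : ∃ n : ℕ, 0 < n ∧ g ^ n = 1 := by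
  have hF := finite_short hG x 0
  have hp : ∀ n : ℕ, g ^ n • x = x := by
    intro n
    induction n with
    | zero => simp
    | succ n ih => rw [pow_succ, mul_smul, h, ih]
  have hninj : ¬ Function.Injective (fun n : ℕ => g ^ n) := by
    intro hinj
    have : (univ : Set ℕ).Finite :=
      Set.Finite.of_injOn (f := fun n : ℕ => g ^ n) (fun n _ => by
        show dist x (g ^ n • x) ≤ 0
        rw [hp, dist_self]) (hinj.injOn) hF
    exact Set.infinite_univ this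
  rw [Function.Injective] at hninj
  push Not at hninj
  obtain ⟨m, n, he, hne⟩ := hninj
  have key : ∀ m n : ℕ, m < n → g ^ m = g ^ n → ∃ n : ℕ, 0 < n ∧ g ^ n = 1 := by
    intro m n hmn he
    refine ⟨n - m, by omega, ?_⟩
    have e2 : g ^ n = g ^ (n - m) * g ^ m := by
      rw [← pow_add]; congr 1; omega
    rw [e2] at he
    exact (mul_eq_right.1 he.symm)
  rcases lt_or_gt_of_ne hne with h | h
  · exact key m n h he
  · exact key n m h he.symm

/-- axes of powers of one element are parallel -/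
lemma par_of_powers [IsIsometricSMul G X] {g : G} {m n : ℕ} (hm : 0 < m) (hn : 0 < n)
    {τ τ' : ℝ} (hτ : 0 < τ) (hτ' : 0 < τ') {c c' : ℝ → X} (hc : Axis (g ^ m) τ c)
    (hc' : Axis (g ^ n) τ' c') : Par c c' := by
  have h1 : Axis (g ^ (m * n)) (n * τ) c := by
    refine ⟨hc.1, fun t => ?_⟩
    rw [pow_mul, Pool.Agent.R632.CZ.Axis.nat hc]
  have h2 : Axis (g ^ (m * n)) (m * τ') c' := by
    refine ⟨hc'.1, fun t => ?_⟩
    rw [mul_comm m n, pow_mul, Pool.Agent.R632.CZ.Axis.nat hc']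
  have hm' : (0 : ℝ) < m := by exact_mod_cast hm
  have hn' : (0 : ℝ) < n := by exact_mod_cast hn
  have key : ∀ (k : G) (σ σ' : ℝ) (d d' : ℝ → X), 0 < σ → 0 < σ' → Axis k σ d → Axis k σ' d' →
      ¬ σ < σ' := by
    intro k σ σ' d d' hσ hσ' hd hd' hlt
    obtain ⟨N, hN⟩ := exists_nat_gt (2 * dist (d 0) (d' 0) / (σ' - σ))
    rw [div_lt_iff₀ (by linarith)] at hN
    have e1 := Pool.Agent.R632.CZ.Axis.nat hd N 0
    have e2 := Pool.Agent.R632.CZ.Axis.nat hd' N 0
    rw [zero_add] at e1 e2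
    have h3 := dist_triangle4 (d' 0) (d 0) (k ^ N • d 0) (k ^ N • d' 0)
    rw [dist_smul, e1, e2, hd'.1.dist_eq, hd.1.dist_eq, Real.dist_eq, Real.dist_eq, zero_sub,
      zero_sub, abs_neg, abs_neg, abs_of_nonneg (by positivity), abs_of_nonneg (by positivity),
      dist_comm (d' 0)] at h3
    nlinarith
  have heq : (n : ℝ) * τ = m * τ' := by
    rcases lt_trichotomy ((n : ℝ) * τ) (m * τ') with h | h | h
    · exact absurd h (key _ _ _ _ _ (by positivity) (by positivity) h1 h2)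
    · exact h
    · exact absurd h (key _ _ _ _ _ (by positivity) (by positivity) h2 h1)
  rw [← heq] at h2
  exact Pool.Agent.R632.CZ.Axis.par (by positivity) h1 h2

/-- **Splitting.** -/
theorem split_of_comm (hG : Geo X G) (hGC : GC X) {A : Subgroup G} (hfg : A.FG)
    (hc : ∀ x ∈ A, ∀ y ∈ A, x * y = y * x)
    (hcomm : ∀ g : G, ∀ s ∈ A, ∃ n : ℕ, 0 < n ∧ g⁻¹ * s ^ n * g ∈ A)
    {b : G} (hb : b ∈ A) (hb' : ∀ n : ℕ, 0 < n → b ^ n ≠ 1) (x : X) :
    (∃ g : G, RankOne X g) ∨ SplitsLine X := by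
  have := hG.isom
  have := hG.proper
  set Z : Set X := {x | ∀ s ∈ A, ∃ m : ℕ, 0 < m ∧ IsMin (s ^ m) x} with hZ
  obtain ⟨x₀, hx₀⟩ := exists_torus_point hG A hfg hc x
  have hx₀Z : x₀ ∈ Z := fun s hs => ⟨1, one_pos, by rw [pow_one]; exact hx₀ s hs⟩
  have hinv : ∀ (g : G) (x : X), x ∈ Z → g • x ∈ Z := by
    intro g x hx s hs
    obtain ⟨n, hn, h1⟩ := hcomm g s hs
    obtain ⟨m, hm, h2⟩ := hx _ h1
    refine ⟨n * m, Nat.mul_pos hn hm, isMin_conj ?_⟩
    have e1 : (g⁻¹ * s ^ n * g) ^ m = g⁻¹ * (s ^ n) ^ m * g := by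
      have := conj_pow (i := m) (a := g⁻¹) (b := s ^ n)
      rwa [inv_inv] at this
    rw [pow_mul, ← e1]
    exact h2
  have hax : ∀ x ∈ Z, ∃ (m : ℕ) (τ : ℝ) (c : ℝ → X), 0 < m ∧ 0 < τ ∧ Axis (b ^ m) τ c ∧
      c 0 = x := by
    intro x hx
    obtain ⟨m, hm, h1⟩ := hx b hb
    have h2 : 0 < dist x (b ^ m • x) := by
      rw [dist_pos]
      intro h3
      obtain ⟨n, hn, h4⟩ := finite_order hG h3.symm
      rw [← pow_mul] at h4
      exact hb' _ (Nat.mul_pos hm hn) h4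
    obtain ⟨c, h3, h4⟩ := axis_through hG.cn h1 h2
    exact ⟨m, _, c, hm, h2, h3, h4⟩
  obtain ⟨m₀, τ₀, c, hm₀, hτ₀, hc₀, hc0⟩ := hax x₀ hx₀Z
  have hsub : Z ⊆ PS c := by
    intro x hx
    obtain ⟨m, τ, c', hm, hτ, h1, h2⟩ := hax x hx
    exact ⟨c', h1.1, par_of_powers hm₀ hm hτ₀ hτ hc₀ h1, h2⟩
  have huniv : PS c = univ := by
    obtain ⟨K, hK, hcov⟩ := hG.cc
    obtain ⟨D, hD⟩ := hK.isBounded.subset_closedBall x₀
    refine eq_univ_of_convex hG.cn hGC ⟨x₀, hsub hx₀Z⟩ (PS_closed hG.cn hc₀.1)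
      (fun x hx y hy m hm => PS_mid hG.cn hx hy hm) (D := D) fun x => ?_
    obtain ⟨g, hg⟩ := hcov x
    have h1 := mem_closedBall.1 (hD hg)
    have h2 : g⁻¹ • x₀ ∈ PS c := hsub (hinv _ _ hx₀Z)
    refine (infDist_le_dist_of_mem h2).trans ?_
    rw [← dist_smul g, smul_inv_smul]
    exact h1
  rcases splits_or hG.cn hc₀.1 huniv with h | h
  · exact Or.inr h
  · exact Or.inl ⟨_, τ₀, c, hτ₀, hc₀, HP_empty_of_line hc₀.1 h⟩

end Pool.Agent.K6.H64.RA
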