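import Pool.Agent.K6.H64.RA.Rank
import Pool.Agent.K6.H64.RA.Cmm

/-!
# Splittings over subgroups which meet some conjugate in a virtually abelian group
-/

set_option autoImplicit false

open Metric Set Filter Topology
open Pool.Agent.TH60.FP Pool.Agent.TH60.FP.Strip Pool.Agent.Y34.HB Pool.Agent.Y34.EL
open Pool.Agent.T6.H46.RR Pool.Agent.T6.H46.RC Pool.Agent.T6.H67.TA

namespace Pool.Agent.K6.H64.RA

section VA

variable {G : Type} [Group G]

/-- virtually (finitely generated abelian) -/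
def VA (L : Subgroup G) : Prop := ∃ A : Subgroup G, A ≤ L ∧ A.FG ∧
  (∀ x ∈ A, ∀ y ∈ A, x * y = y * x) ∧ A.relIndex L ≠ 0

lemma VA.mono {L L' : Subgroup G} (h : VA L) (hL : L' ≤ L) : VA L' := by
  obtain ⟨A, hA, hfg, hc, hi⟩ := h
  refine ⟨A ⊓ L', inf_le_right, fg_of_le hfg hc inf_le_left,
    fun x hx y hy => hc x hx.1 y hy.1, ?_⟩
  rw [Subgroup.inf_relIndex_right]
  intro h0
  exact hi (Subgroup.relIndex_eq_zero_of_le_right hL h0)

lemma VA.conj {L L' : Subgroup G} (h : VA L) (g : G) (hL : ∀ s ∈ L', g⁻¹ * s * g ∈ L) : VA L' := by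
  refine VA.mono (L := L.map (MulAut.conj g).toMonoidHom) ?_ ?_
  · obtain ⟨A, hA, hfg, hc, hi⟩ := h
    refine ⟨A.map (MulAut.conj g).toMonoidHom, Subgroup.map_mono hA, ?_, ?_, ?_⟩
    · have h1 : Group.FG A := (Group.fg_iff_subgroup_fg A).2 hfg
      have h2 : Group.FG (A.map (MulAut.conj g).toMonoidHom) :=
        Group.fg_of_surjective (f := ((MulAut.conj g).toMonoidHom.subgroupMap A))
          (MonoidHom.subgroupMap_surjective _ _)
      exact (Group.fg_iff_subgroup_fg _).1 h2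
    · rintro _ ⟨x, hx, rfl⟩ _ ⟨y, hy, rfl⟩
      rw [← map_mul, ← map_mul, hc x hx y hy]
    · rw [Subgroup.relIndex_map_map_of_injective _ _ (MulAut.conj g).injective]
      exact hi
  · intro s hs
    refine ⟨g⁻¹ * s * g, hL s hs, ?_⟩
    show g * (g⁻¹ * s * g) * g⁻¹ = s
    group

end VA

variable {X : Type} [MetricSpace X] {G : Type} [Group G] [MulAction G X]
  {V : Type} {T : SimpleGraph V} (hT : T.IsTree) [MulAction G V]
  (hact : ∀ (g : G) (u v : V), T.Adj u v → T.Adj (g • u) (g • v))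

omit [MulAction G X] in
include hT hact in
/-- the second edge can be chosen in coherent position -/
lemma exists_coh {a b : V} (hab : T.Adj a b) {p q : G} (hp : Fac T a b p) (hq : Fac T b a q)
    {g : G} (hg : VA (Sg a b g)) : ∃ h : G, Coh T a b h ∧ VA (Sg a b h) := by
  rcases edge_cases hT hab (hact g a b hab) with h | h | h | h | h | h
  · refine ⟨p * q, fac_mul hT hact hab hp hq, hg.mono fun s hs => ?_⟩
    rw [mem_Sg] at hs ⊢
    rw [h.1, h.2]
    exact ⟨hs.1, hs.1⟩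
  · refine ⟨p * q, fac_mul hT hact hab hp hq, hg.mono fun s hs => ?_⟩
    rw [mem_Sg] at hs ⊢
    rw [h.1, h.2]
    exact ⟨hs.1, hs.1.2, hs.1.1⟩
  · exact ⟨g, h, hg⟩
  · refine ⟨g⁻¹, (coh_inv hT hact).2 h, hg.conj g⁻¹ fun s hs => ?_⟩
    rw [mem_Sg] at hs ⊢
    obtain ⟨⟨h1, h2⟩, h3, h4⟩ := hs
    rw [inv_inv]
    refine ⟨⟨?_, ?_⟩, ?_, ?_⟩
    · rw [mul_smul, mul_smul, h3, smul_inv_smul]
    · rw [mul_smul, mul_smul, h4, smul_inv_smul]
    · rw [mul_smul, mul_smul, inv_smul_smul, h1]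
    · rw [mul_smul, mul_smul, inv_smul_smul, h2]
  · exact ⟨g * q, fac_mul hT hact hab h hq, hg.mono (Sg_fac_le hT hact hab h hq)⟩
  · refine ⟨p * g, fac_mul hT hact hab hp h, hg.conj p fun s hs => ?_⟩
    rw [mem_Sg] at hs ⊢
    obtain ⟨⟨h1, h2⟩, h3, h4⟩ := hs
    obtain ⟨h5, h6⟩ := fix_mid hT hact hab hp h h1 h2 h3 h4
    rw [mul_smul] at h3 h4
    refine ⟨⟨?_, ?_⟩, ?_, ?_⟩
    · rw [mul_smul, mul_smul, h5, inv_smul_smul]
    · rw [mul_smul, mul_smul, h6, inv_smul_smul]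
    · rw [mul_smul, mul_smul, h3, inv_smul_smul]
    · rw [mul_smul, mul_smul, h4, inv_smul_smul]

include hT hact in
/-- **Main theorem.** -/
theorem main (hG : Geo X G) (hGC : GC X) (x : X) {a b : V} (hab : T.Adj a b) {p q : G}
    (hp : Fac T a b p) (hq : Fac T b a q) {g : G} (hg : VA (Sg a b g)) :
    (∃ g : G, RankOne X g) ∨ SplitsLine X := by
  obtain ⟨h₁, hh₁, hVA⟩ := exists_coh hT hact hab hp hq hg
  obtain ⟨A, hA, hfg, hc, hi⟩ := hVA
  have hPw : Pw (Sg a b h₁) A := by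
    intro s hs
    obtain ⟨n, hn, -, h1⟩ := Subgroup.exists_pow_mem_of_relIndex_ne_zero hi hs
    exact ⟨n, hn, h1.1⟩
  -- the minimal segment
  let ι := Option {c : G // Coh T a b c}
  let f : ι → G := fun i => match i with
    | none => h₁
    | some c => h₁ * c
  have hf : ∀ i, Coh T a b (f i) := by
    intro i
    cases i with
    | none => exact hh₁
    | some c => exact coh_mul hT hact hab hh₁ c.2
  have hf' : ∀ i, ∀ c : G, Coh T a b c → ∃ j, f j = f i * c := by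
    intro i c hc
    cases i with
    | none => exact ⟨some ⟨c, hc⟩, rfl⟩
    | some d => exact ⟨some ⟨d * c, coh_mul hT hact hab d.2 hc⟩, by
        show h₁ * (d * c) = h₁ * d * c
        rw [mul_assoc]⟩
  have hle : ∀ i, Sg a b (f i) ≤ Sg a b h₁ := by
    intro i
    cases i with
    | none => exact le_rfl
    | some c => exact Sg_coh_le hT hact hab hh₁ (Or.inl c.2)
  obtain ⟨i, hmin⟩ := exists_min hfg hc hPw (fun i => Sg a b (f i)) hle
  set h₀ := f i with hh₀
  have h₀c := hf i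
  have hmin' : ∀ c : G, Coh T a b c → Pw (Sg a b h₀) (Sg a b (h₀ * c)) := by
    intro c hc'
    obtain ⟨j, hj⟩ := hf' i c hc'
    have h1 := hmin j (by
      show Sg a b (f j) ≤ Sg a b (f i)
      rw [hj]
      exact Sg_coh_le hT hact hab (hf i) (Or.inl hc'))
    rw [hj] at h1
    exact h1
  have hN := all_N hT hact hab h₀c hmin' hp hq
  set A₀ := A ⊓ Sg a b h₀ with hA₀
  have hfg₀ : A₀.FG := fg_of_le hfg hc inf_le_left
  have hc₀ : ∀ x ∈ A₀, ∀ y ∈ A₀, x * y = y * x := fun x hx y hy => hc x hx.1 y hy.1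
  by_cases ht : ∀ x ∈ A₀, ∃ n : ℕ, 0 < n ∧ x ^ n = 1
  · -- a finite segment stabiliser
    left
    have hfin := finite_of_torsion hfg₀ hc₀ ht
    have hidx : A₀.relIndex (Sg a b h₀) ≠ 0 := by
      rw [hA₀, Subgroup.inf_relIndex_right]
      intro h0
      exact hi (Subgroup.relIndex_eq_zero_of_le_right (hle i) h0)
    have hfinL : (Sg a b h₀ : Set G).Finite := by
      have h1 : Finite A₀ := hfin
      have h2 : Nat.card A₀ ≠ 0 := Nat.card_pos.ne'
      have h3 : (⊥ : Subgroup G).relIndex (Sg a b h₀) ≠ 0 := by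
        refine Subgroup.relIndex_ne_zero_trans (K := A₀) ?_ hidx
        rw [Subgroup.relIndex_bot_left]
        exact h2
      rw [Subgroup.relIndex_bot_left] at h3
      exact (Nat.finite_of_card_ne_zero h3)
    obtain ⟨hax, hfix⟩ := coh_onAxis hT hact hab h₀c
    exact ⟨h₀, rank_one_of_finite hT hact hG x hax 2 (hfinL.subset fun s hs => hfix s hs.1 hs.2)⟩
  · push Not at ht
    obtain ⟨d, hd, hd'⟩ := ht
    refine split_of_comm hG hGC hfg₀ hc₀ (fun g s hs => ?_) hd hd' x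
    obtain ⟨n, hn, h1⟩ := (hN g).1 s hs.2
    obtain ⟨m, hm, h2⟩ := hPw _ (hle i h1)
    refine ⟨n * m, Nat.mul_pos hn hm, ?_⟩
    have e : g⁻¹ * s ^ (n * m) * g = (g⁻¹ * s ^ n * g) ^ m := by
      have := conj_pow (i := m) (a := g⁻¹) (b := s ^ n)
      rw [inv_inv] at this
      rw [this, pow_mul]
    rw [e]
    exact ⟨h2, (Sg a b h₀).pow_mem h1 m⟩

end Pool.Agent.K6.H64.RA
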