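import Pool.Agent.T6.H46.RC.Tr

/-!
# Groups acting on trees: segments whose stabilisers do not become smaller are commensurated
-/

set_option autoImplicit false

open Pool.Agent.T6.H67.TA Pool.Agent.T6.H46.RR Pool.Agent.T6.H46.RC

namespace Pool.Agent.K6.H64.RA

variable {V : Type} {T : SimpleGraph V} {G : Type} [Group G] [MulAction G V]

/-- the pointwise stabiliser of the edges `{a, b}` and `{h a, h b}` -/
def Sg (a b : V) (h : G) : Subgroup G :=
  (MulAction.stabilizer G a ⊓ MulAction.stabilizer G b) ⊓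
    (MulAction.stabilizer G (h • a) ⊓ MulAction.stabilizer G (h • b))

lemma mem_Sg {a b : V} {h s : G} : s ∈ Sg a b h ↔
    (s • a = a ∧ s • b = b) ∧ s • h • a = h • a ∧ s • h • b = h • b := by
  simp [Sg, Subgroup.mem_inf, MulAction.mem_stabilizer_iff]

/-- all elements of `L` have positive powers in `M` -/
def Pw (L M : Subgroup G) : Prop := ∀ s ∈ L, ∃ n : ℕ, 0 < n ∧ s ^ n ∈ M

section

variable (hT : T.IsTree) (hact : ∀ (g : G) (u v : V), T.Adj u v → T.Adj (g • u) (g • v))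

include hT hact in
/-- coherent elements: what fixes the ends fixes the translate of the edge -/
lemma coh_fix {a b : V} (hab : T.Adj a b) {h : G} (hh : Coh T a b h) {y : V}
    (hy : D T a y = D T b y + 1) {s : G} (ha : s • a = a) (hs : s • h • y = h • y) :
    s • h • a = h • a ∧ s • h • b = h • b := by
  obtain ⟨h1, h2, h3, h4⟩ := hh.vals hT hact hab
  have hd : D T (h • a) (h • b) = 1 := by
    rw [D_smul hT hact]; exact adj_D hab
  have e1 := sep_edge hT (a := h • a) (b := h • b) (w := a) (u := h • y) hd h1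
    (by rw [D_smul hT hact, D_smul hT hact]; exact hy)
  have k1 := D_smul hT hact h a y
  have k2 := D_smul hT hact h b y
  constructor
  · refine fix_between hT hact (a := a) (b := h • y) ?_ ha hs
    unfold P
    rw [D_comm (h • a) a]
    omega
  · refine fix_between hT hact (a := a) (b := h • y) ?_ ha hs
    unfold P
    rw [D_comm (h • b) a]
    omega

include hT hact in
/-- products of coherent elements are coherent -/
lemma coh_mul {a b : V} (hab : T.Adj a b) {h k : G} (hh : Coh T a b h) (hk : Coh T a b k) :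
    Coh T a b (h * k) := by
  obtain ⟨h1, h2, h3, h4⟩ := hh.vals hT hact hab
  obtain ⟨k1, k2, k3, k4⟩ := hk.vals hT hact hab
  have hd : D T (h • a) (h • b) = 1 := by
    rw [D_smul hT hact]; exact adj_D hab
  have s : ∀ x y : V, D T (h • x) ((h * k) • y) = D T x (k • y) := by
    intro x y; rw [mul_smul, D_smul hT hact]
  have e1 := sep_edge hT (a := h • a) (b := h • b) (w := a) (u := (h * k) • b) hd h1
    (by rw [s, s]; exact k4)
  have e2 := sep_edge hT (a := h • a) (b := h • b) (w := b) (u := (h * k) • a) hd h3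
    (by rw [s, s]; exact k2)
  rw [s] at e1 e2
  unfold Coh
  rw [e1, e2]
  omega

include hT hact in
lemma Sg_coh_le {a b : V} (hab : T.Adj a b) {h k : G} (hh : Coh T a b h)
    (hk : Coh T a b k ∨ Fac T a b k) : Sg a b (h * k) ≤ Sg a b h := by
  intro s hs
  rw [mem_Sg] at hs ⊢
  obtain ⟨⟨s1, s2⟩, s3, s4⟩ := hs
  rw [mul_smul] at s3 s4
  refine ⟨⟨s1, s2⟩, ?_⟩
  rcases hk with hk | hk
  · exact coh_fix hT hact hab hh (y := k • b) (hk.vals hT hact hab).2.2.2 s1 s4
  · exact coh_fix hT hact hab hh (y := k • a) (hk.vals hT hact hab).2.2.2 s1 s3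

include hT hact in
lemma Sg_fac_le {a b : V} (hab : T.Adj a b) {p q : G} (hp : Fac T a b p) (hq : Fac T b a q) :
    Sg a b (p * q) ≤ Sg a b p := by
  intro s hs
  rw [mem_Sg] at hs ⊢
  obtain ⟨⟨s1, s2⟩, s3, s4⟩ := hs
  exact ⟨⟨s1, s2⟩, fix_mid hT hact hab hp hq s1 s2 s3 s4⟩

/-- conjugates of elements of `L` have powers in `L` -/
def Q (L : Subgroup G) (g : G) : Prop := ∀ s ∈ L, ∃ n : ℕ, 0 < n ∧ g⁻¹ * s ^ n * g ∈ L

omit [MulAction G V] in
lemma Q.mul {L : Subgroup G} {g h : G} (hg : Q L g) (hh : Q L h) : Q L (g * h) := by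
  intro s hs
  obtain ⟨n, hn, h1⟩ := hg s hs
  obtain ⟨m, hm, h2⟩ := hh _ h1
  refine ⟨n * m, Nat.mul_pos hn hm, ?_⟩
  have e : (g * h)⁻¹ * s ^ (n * m) * (g * h) = h⁻¹ * (g⁻¹ * s ^ n * g) ^ m * h := by
    have e1 : (g⁻¹ * s ^ n * g) ^ m = g⁻¹ * (s ^ n) ^ m * g := by
      have := conj_pow (i := m) (a := g⁻¹) (b := s ^ n)
      rwa [inv_inv] at this
    rw [e1, pow_mul]
    group
  rw [e]
  exact h2

/-- `g` commensurates `L` -/
def N (L : Subgroup G) (g : G) : Prop := Q L g ∧ Q L g⁻¹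

omit [MulAction G V] in
lemma N.mul {L : Subgroup G} {g h : G} (hg : N L g) (hh : N L h) : N L (g * h) := by
  refine ⟨hg.1.mul hh.1, ?_⟩
  rw [mul_inv_rev]
  exact hh.2.mul hg.2

omit [MulAction G V] in
lemma N.inv {L : Subgroup G} {g : G} (hg : N L g) : N L g⁻¹ := by
  refine ⟨hg.2, ?_⟩
  rw [inv_inv]; exact hg.1

include hT hact in
lemma Q_fac {a b : V} (hab : T.Adj a b) {h₀ : G} (h₀c : Coh T a b h₀)
    (hmin : ∀ c : G, Coh T a b c → Pw (Sg a b h₀) (Sg a b (h₀ * c))) {p q : G}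
    (hp : Fac T a b p) (hq : Fac T b a q) : Q (Sg a b h₀) (h₀ * p * h₀⁻¹) := by
  have hi : Coh T b a h₀⁻¹ := (coh_inv hT hact).2 h₀c
  have hq' : Fac T b a (h₀⁻¹ * q) := coh_mul_fac hT hact hab.symm hi hq
  have hc : Coh T a b (p * (h₀⁻¹ * q)) := fac_mul hT hact hab hp hq'
  intro s hs
  obtain ⟨n, hn, h1⟩ := hmin _ hc s hs
  refine ⟨n, hn, ?_⟩
  have hs' := (Sg a b h₀).pow_mem hs n
  rw [mem_Sg] at hs' h1
  obtain ⟨⟨a1, a2⟩, a3, a4⟩ := hs'
  obtain ⟨-, b1, b2⟩ := h1
  -- conjugate by `h₀`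
  set s₁ := h₀⁻¹ * s ^ n * h₀ with hs₁
  have c1 : s₁ • a = a := by rw [hs₁, mul_smul, mul_smul, a3, inv_smul_smul]
  have c2 : s₁ • b = b := by rw [hs₁, mul_smul, mul_smul, a4, inv_smul_smul]
  have c3 : s₁ • (p * (h₀⁻¹ * q)) • a = (p * (h₀⁻¹ * q)) • a := by
    rw [mul_smul h₀] at b1
    rw [hs₁, mul_smul, mul_smul, b1, inv_smul_smul]
  have c4 : s₁ • (p * (h₀⁻¹ * q)) • b = (p * (h₀⁻¹ * q)) • b := by
    rw [mul_smul h₀] at b2
    rw [hs₁, mul_smul, mul_smul, b2, inv_smul_smul]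
  obtain ⟨d1, d2⟩ := fix_mid hT hact hab hp hq' c1 c2 c3 c4
  set s₂ := p⁻¹ * s₁ * p with hs₂
  have f1 : s₂ • a = a := by rw [hs₂, mul_smul, mul_smul, d1, inv_smul_smul]
  have f2 : s₂ • b = b := by rw [hs₂, mul_smul, mul_smul, d2, inv_smul_smul]
  have f3 : s₂ • h₀⁻¹ • q • b = h₀⁻¹ • q • b := by
    rw [mul_smul p, mul_smul h₀⁻¹] at c4
    rw [hs₂, mul_smul, mul_smul, c4, inv_smul_smul]
  obtain ⟨g1, g2⟩ := coh_fix hT hact hab.symm hi (y := q • b)
    (hq.vals hT hact hab.symm).2.2.2 f2 f3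
  -- the conclusion
  have e : (h₀ * p * h₀⁻¹)⁻¹ * s ^ n * (h₀ * p * h₀⁻¹) = h₀ * s₂ * h₀⁻¹ := by
    rw [hs₂, hs₁]; group
  rw [e, mem_Sg]
  refine ⟨⟨?_, ?_⟩, ?_, ?_⟩
  · rw [mul_smul, mul_smul, g2, smul_inv_smul]
  · rw [mul_smul, mul_smul, g1, smul_inv_smul]
  · rw [mul_smul, mul_smul, inv_smul_smul, f1]
  · rw [mul_smul, mul_smul, inv_smul_smul, f2]

include hT hact in
/-- **Commensuration.** A segment whose stabiliser does not become smaller (up to powers) when the
segment is prolonged has a commensurated stabiliser. -/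
theorem all_N {a b : V} (hab : T.Adj a b) {h₀ : G} (h₀c : Coh T a b h₀)
    (hmin : ∀ c : G, Coh T a b c → Pw (Sg a b h₀) (Sg a b (h₀ * c))) {p q : G}
    (hp : Fac T a b p) (hq : Fac T b a q) (g : G) : N (Sg a b h₀) g := by
  set L := Sg a b h₀ with hL
  have n1 : ∀ p' : G, Fac T a b p' → N L (h₀ * p' * h₀⁻¹) := by
    intro p' hp'
    refine ⟨Q_fac hT hact hab h₀c hmin hp' hq, ?_⟩
    have := Q_fac hT hact hab h₀c hmin (hp'.inv hT hact) hq
    have e : (h₀ * p' * h₀⁻¹)⁻¹ = h₀ * p'⁻¹ * h₀⁻¹ := by group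
    rw [e]; exact this
  have n2 : ∀ c : G, Coh T a b c → N L (h₀ * c * h₀⁻¹) := by
    intro c hc
    have h1 := n1 _ (coh_mul_fac hT hact hab hc hp)
    have h2 := h1.mul (n1 p hp).inv
    have e : h₀ * (c * p) * h₀⁻¹ * (h₀ * p * h₀⁻¹)⁻¹ = h₀ * c * h₀⁻¹ := by group
    rwa [e] at h2
  have n3 : N L h₀ := by
    have := n2 h₀ h₀c
    rwa [mul_inv_cancel_right] at this
  have n4 : ∀ c : G, Coh T a b c → N L c := by
    intro c hc
    have h1 := (n3.inv.mul (n2 c hc)).mul n3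
    have e : h₀⁻¹ * (h₀ * c * h₀⁻¹) * h₀ = c := by group
    rwa [e] at h1
  have n5 : ∀ c : G, Fac T a b c → N L c := by
    intro c hc
    have h1 := (n3.inv.mul (n1 c hc)).mul n3
    have e : h₀⁻¹ * (h₀ * c * h₀⁻¹) * h₀ = c := by group
    rwa [e] at h1
  rcases edge_cases hT hab (hact g a b hab) with h | h | h | h | h | h
  · have h1 : Coh T a b (g * h₀) := by
      have e : ∀ x y : V, g • x = x → D T x ((g * h₀) • y) = D T x (h₀ • y) := by
        intro x y hx
        have := D_smul hT hact g x (h₀ • y)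
        rw [hx] at this
        rw [mul_smul, this]
      unfold Coh
      rw [e a b h.1, e b a h.2]; exact h₀c
    have h2 := (n4 _ h1).mul n3.inv
    rwa [mul_inv_cancel_right] at h2
  · have h1 : Fac T a b (h₀ * g) := by
      unfold Fac
      rw [mul_smul, mul_smul, h.1, h.2]; exact h₀c
    have h2 := n3.inv.mul (n5 _ h1)
    rwa [inv_mul_cancel_left] at h2
  · exact n4 g h
  · have h1 : Coh T a b g⁻¹ := (coh_inv hT hact).2 h
    have h2 := (n4 _ h1).inv
    rwa [inv_inv] at h2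
  · exact n5 g h
  · have h1 := n4 _ (fac_mul hT hact hab hp (q := g) h)
    have h2 := (n5 _ (hp.inv hT hact)).mul h1
    rwa [inv_mul_cancel_left] at h2

include hT hact in
/-- the axis of a coherent element -/
lemma coh_onAxis {a b : V} (hab : T.Adj a b) {h : G} (hh : Coh T a b h) : OnAxis T h a ∧
    ∀ s : G, s • a = a → s • h ^ 2 • a = h ^ 2 • a → s ∈ Sg a b h := by
  obtain ⟨h1, h2, h3, h4⟩ := hh.vals hT hact hab
  have hhh := coh_mul hT hact hab hh hh
  obtain ⟨k1, k2, k3, k4⟩ := hhh.vals hT hact hab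
  have hab1 := adj_D hab
  have hd : D T (h • a) (h • b) = 1 := by
    rw [D_smul hT hact]; exact hab1
  have s : ∀ x y : V, D T (h • x) ((h * h) • y) = D T x (h • y) := by
    intro x y; rw [mul_smul, D_smul hT hact]
  have e1 := sep_edge hT (a := h • a) (b := h • b) (w := a) (u := (h * h) • a) hd h1
    (by rw [s, s]; exact h2)
  have e2 := sep_edge hT (a := a) (b := b) (w := a) (u := h • a) hab1
    (by rw [D_self, hab1, zero_add]) h2
  have m1 := s a a
  have m2 := s b a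
  have n0 := D_nonneg (T := T) b (h • a)
  have hpow : h ^ 2 • a = (h * h) • a := by rw [pow_two]
  refine ⟨⟨by omega, ?_⟩, fun t ht1 ht2 => ?_⟩
  · unfold P
    have k1' : D T a (h⁻¹ • a) = D T a (h • a) := D_inv hT hact h a
    have k2' : D T (h • a) (h⁻¹ • a) = D T a ((h * h) • a) := by
      rw [D_inv' hT hact h (h • a) a, mul_smul]
    rw [k1', k2']
    omega
  · rw [hpow] at ht2
    have e3 := sep_edge hT (a := a) (b := b) (w := a) (u := (h * h) • a) hab1
      (by rw [D_self, hab1, zero_add]) k2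
    have hfix : ∀ z : V, D T a z + D T z ((h * h) • a) = D T a ((h * h) • a) → t • z = z := by
      intro z hz
      refine fix_between hT hact (a := a) (b := (h * h) • a) ?_ ht1 ht2
      unfold P
      rw [D_comm z a]; omega
    rw [mem_Sg]
    refine ⟨⟨ht1, hfix b (by omega)⟩, hfix _ (by omega), hfix _ (by omega)⟩

end

end Pool.Agent.K6.H64.RA
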