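import Mathlib
import Pool.Agent.K6.H64.RA.Tree

/-!
# Ranks of subgroups of a finitely generated abelian group
-/

set_option autoImplicit false

namespace Pool.Agent.K6.H64.RA

/-- submodules of equal rank agree up to torsion -/
lemma torsion_of_finrank {M : Type*} [AddCommGroup M] [Module.Finite ℤ M] (N N' : Submodule ℤ M)
    (h : N' ≤ N) (hr : Module.finrank ℤ N ≤ Module.finrank ℤ N') :
    ∀ x ∈ N, ∃ n : ℕ, 0 < n ∧ n • x ∈ N' := by
  intro x hx
  have h1 := Submodule.finrank_quotient_add_finrank (R := ℤ) (M := N) (N'.comap N.subtype)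
  have h2 : Module.finrank ℤ (N'.comap N.subtype) = Module.finrank ℤ N' :=
    LinearEquiv.finrank_eq (Submodule.comapSubtypeEquivOfLe h)
  have h3 : Module.finrank ℤ (N ⧸ N'.comap N.subtype) = 0 := by omega
  rw [Module.finrank_eq_zero_iff_isTorsion] at h3
  obtain ⟨r, hr⟩ := @h3 (Submodule.Quotient.mk ⟨x, hx⟩)
  have hr0 : (r : ℤ) ≠ 0 := nonZeroDivisors.ne_zero r.2
  have h4 : (r : ℤ) • x ∈ N' := by
    have h5 : Submodule.Quotient.mk ((r : ℤ) • (⟨x, hx⟩ : N)) =
        (0 : N ⧸ N'.comap N.subtype) := by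
      rw [Submodule.Quotient.mk_smul]; exact hr
    rw [Submodule.Quotient.mk_eq_zero] at h5
    exact h5
  refine ⟨(r : ℤ).natAbs, Int.natAbs_pos.2 hr0, ?_⟩
  rw [← natCast_zsmul]
  rcases Int.natAbs_eq (r : ℤ) with h6 | h6
  · rw [← h6]; exact h4
  · have h7 : (((r : ℤ).natAbs : ℕ) : ℤ) = -(r : ℤ) := by omega
    rw [h7, neg_smul]
    exact N'.neg_mem h4

variable {G : Type} [Group G]

/-- commutative group structure on a commutative subgroup -/
@[reducible] def cg (A : Subgroup G) (hc : ∀ x ∈ A, ∀ y ∈ A, x * y = y * x) : CommGroup A :=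
  { (inferInstance : Group A) with
    mul_comm := fun x y => Subtype.ext (hc x x.2 y y.2) }

/-- a family of subgroups has a member which is minimal up to powers -/
theorem exists_min {A L : Subgroup G} (hfg : A.FG)
    (hc : ∀ x ∈ A, ∀ y ∈ A, x * y = y * x) (hLA : Pw L A) {ι : Type} [Nonempty ι]
    (S : ι → Subgroup G) (hS : ∀ i, S i ≤ L) :
    ∃ i, ∀ j, S j ≤ S i → Pw (S i) (S j) := by
  classical
  let _ := cg A hc
  have hfg' : Group.FG A := (Group.fg_iff_subgroup_fg A).2 hfg
  have hfg'' : AddGroup.FG (Additive A) := GroupFG.iff_add_fg.1 hfg'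
  have : Module.Finite ℤ (Additive A) := Module.Finite.iff_addGroup_fg.2 hfg''
  let N : Subgroup G → Submodule ℤ (Additive A) := fun B =>
    AddSubgroup.toIntSubmodule (Subgroup.toAddSubgroup (B.subgroupOf A))
  have hN : ∀ (B : Subgroup G) (x : A), Additive.ofMul x ∈ N B ↔ (x : G) ∈ B := by
    intro B x
    rfl
  obtain ⟨i, hi⟩ : ∃ i, ∀ j, Module.finrank ℤ (N (S i)) ≤ Module.finrank ℤ (N (S j)) := by
    obtain ⟨i, hi⟩ := (WellFounded.min_mem (wellFounded_lt (α := ℕ))
      (Set.range fun i => Module.finrank ℤ (N (S i))) (Set.range_nonempty _) :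
        _ ∈ Set.range _)
    refine ⟨i, fun j => ?_⟩
    have := WellFounded.min_le (wellFounded_lt (α := ℕ))
      (s := Set.range fun i => Module.finrank ℤ (N (S i))) ⟨j, rfl⟩
    simp only at hi
    rw [hi]
    exact this
  refine ⟨i, fun j hji s hs => ?_⟩
  obtain ⟨n, hn, hsn⟩ := hLA s (hS i hs)
  have h1 : N (S j) ≤ N (S i) := by
    intro x hx
    exact hji hx
  have h2 := torsion_of_finrank (N (S i)) (N (S j)) h1 (hi j)
    (Additive.ofMul (⟨s ^ n, hsn⟩ : A)) ((hN _ _).2 ((S i).pow_mem hs n))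
  obtain ⟨m, hm, hm'⟩ := h2
  refine ⟨n * m, Nat.mul_pos hn hm, ?_⟩
  rw [← ofMul_pow] at hm'
  have h3 := (hN _ _).1 hm'
  rw [pow_mul]
  exact h3

/-- abelian f.g. subgroup without elements of infinite order is finite -/
theorem finite_of_torsion {A : Subgroup G} (hfg : A.FG)
    (hc : ∀ x ∈ A, ∀ y ∈ A, x * y = y * x) (ht : ∀ x ∈ A, ∃ n : ℕ, 0 < n ∧ x ^ n = 1) :
    (A : Set G).Finite := by
  let _ := cg A hc
  have : Group.FG A := (Group.fg_iff_subgroup_fg A).2 hfg
  have : Finite A := by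
    apply CommGroup.finite_of_fg_isMulTorsion
    intro x
    obtain ⟨n, hn, hx⟩ := ht x x.2
    rw [isOfFinOrder_iff_pow_eq_one]
    exact ⟨n, hn, Subtype.ext hx⟩
  exact Set.toFinite _

/-- subgroups of a finitely generated abelian group are finitely generated -/
theorem fg_of_le {A B : Subgroup G} (hfg : A.FG)
    (hc : ∀ x ∈ A, ∀ y ∈ A, x * y = y * x) (hBA : B ≤ A) : B.FG := by
  let _ := cg A hc
  have hfg' : Group.FG A := (Group.fg_iff_subgroup_fg A).2 hfg
  have hfg'' : AddGroup.FG (Additive A) := GroupFG.iff_add_fg.1 hfg'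
  have : Module.Finite ℤ (Additive A) := Module.Finite.iff_addGroup_fg.2 hfg''
  have h1 : (AddSubgroup.toIntSubmodule (Subgroup.toAddSubgroup (B.subgroupOf A))).FG :=
    IsNoetherian.noetherian _
  have h2 : (B.subgroupOf A).FG := by
    rw [Submodule.fg_iff_addSubgroup_fg] at h1
    rw [Subgroup.fg_iff_add_fg]
    exact h1
  have h3 : Group.FG (B.subgroupOf A) := (Group.fg_iff_subgroup_fg _).2 h2
  have h4 : Group.FG B := by
    refine Group.fg_of_surjective (f := (Subgroup.subgroupOfEquivOfLe hBA).toMonoidHom) ?_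
    exact (Subgroup.subgroupOfEquivOfLe hBA).surjective
  exact (Group.fg_iff_subgroup_fg B).1 h4

end Pool.Agent.K6.H64.RA
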